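import Pool.Agent.F5H.StmtsD

/-!
MP_f5cbfa_nt, squad F5H, row C_SCL: scaling of the first variable.
-/

set_option autoImplicit false

open MeasureTheory

namespace Pool.Agent.F5H.BC.H65

open Pool.Agent.F5H Pool.Agent.F5H.BC

theorem scl : SCLStmt := by
  intro s hs B
  obtain ⟨e, he⟩ : ∃ e : (ℝ × (Fin 3 → ℝ)) ≃ᵐ (ℝ × (Fin 3 → ℝ)),
      ∀ w, e w = (s * w.1, w.2) :=
    ⟨(MeasurableEquiv.mulLeft₀ s hs.ne').prodCongr (MeasurableEquiv.refl _), fun w => rfl⟩
  have he' : (e : (ℝ × (Fin 3 → ℝ)) → (ℝ × (Fin 3 → ℝ))) = Prod.map (s * ·) id := by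
    funext w
    rw [he w]
    rfl
  have h2 : Measure.map e (volume : Measure (ℝ × (Fin 3 → ℝ))) =
      ENNReal.ofReal |s⁻¹| • (volume : Measure (ℝ × (Fin 3 → ℝ))) := by
    rw [he']
    show Measure.map (Prod.map (s * ·) id)
      ((volume : Measure ℝ).prod (volume : Measure (Fin 3 → ℝ))) = _
    rw [← Measure.map_prod_map _ _ (measurable_const_mul s) measurable_id,
      Real.map_volume_mul_left hs.ne', Measure.map_id, Measure.prod_smul_left]
    rfl
  have h3 : Measure.map e (volume : Measure (ℝ × (Fin 3 → ℝ))) B = volume (e ⁻¹' B) :=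
    e.map_apply B
  have h4 : e ⁻¹' B = {w : ℝ × (Fin 3 → ℝ) | (s * w.1, w.2) ∈ B} := by
    ext w
    show e w ∈ B ↔ (s * w.1, w.2) ∈ B
    rw [he w]
  rw [← h4, ← h3, h2, Measure.smul_apply, smul_eq_mul, ← mul_assoc,
    ← ENNReal.ofReal_mul hs.le, abs_of_pos (inv_pos.2 hs), mul_inv_cancel₀ hs.ne',
    ENNReal.ofReal_one, one_mul]

end Pool.Agent.F5H.BC.H65
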