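import Pool.Agent.F5H.StmtsA
import Pool.Agent.Helper39_F5S.TNF
import Pool.Agent.Helper39_F5S.PWF
import Pool.Agent.Helper32_F5S.Kkf
import Pool.Agent.Helper27_F5S.WBF
import Pool.Agent.BTL.Annul
import Pool.Agent.BTL.Area
import Pool.Agent.Helper81_F5H.PRF
import Pool.Agent.Helper41_F5H.CLF
import Pool.Agent.Helper41_F5H.CHK
import Pool.Agent.Helper81_F5H.VAE
import Pool.Agent.Helper90_F5H.AVG
import Pool.Agent.Helper2_F5H.SUM
import Pool.Agent.Helper10_F5H.SEC
import Pool.Agent.Helper39_F5H.EX1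
import Pool.Agent.Helper39_F5H.SPT
import Pool.Agent.Helper24_F5H.ONE
import Pool.Agent.Helper83_F5H.A_FIN
import Pool.Agent.Helper25_F5H.SML
import Pool.Agent.Helper60_F5H.KAF
import Pool.Agent.Helper60_F5H.GGF
import Pool.Agent.Helper56_F5H.GEN
import Pool.Agent.Helper56_F5H.FAF

/-!
MP_f5cbfa_nt, squad F5H, block A: `HARDStmt` from the five inputs.
-/

set_option autoImplicit false

namespace Pool.Agent.F5H.AsmA

open Pool.Agent.BTL Pool.Agent.F5S Pool.Agent.F5H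

theorem tnf : TNFStmt := Pool.Agent.F5S.H39.tnf

theorem kkf : KKFStmt := Pool.Agent.F5S.H32.kkf tnf

theorem wbf : WBFStmt := Pool.Agent.F5S.H27.wbf Pool.Agent.F5S.H39.pwf

theorem ann : S_area_annulus :=
  Pool.Agent.BTL.Annul.main_area_annulus Pool.Agent.BTL.Area.main_area_ellipse

theorem kaf : KAFStmt := Pool.Agent.F5H.H60.kaf tnf kkf

theorem faf : FAFStmt :=
  Pool.Agent.F5H.H56.faf kaf Pool.Agent.F5H.H81.prf Pool.Agent.F5H.H41.clf Pool.Agent.F5H.H41.chk

theorem ggf : GGFStmt := Pool.Agent.F5H.H60.ggf tnf kaf Pool.Agent.F5H.H81.prf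

theorem gen : GENStmt := Pool.Agent.F5H.H56.gen Pool.Agent.F5H.H41.clf ggf

/-- Block A of the squad F5H: the local theorem `HARDStmt` from the five inputs. -/
theorem blockA (dz : DZStmt) (n : NStmt) (m : MStmt) (k0 : K0Stmt) (x : XStmt) : HARDStmt :=
  have vae : VAEStmt := Pool.Agent.F5H.H81.vae gen
  have avg : AVGStmt := Pool.Agent.F5H.H90.avg Pool.Agent.F5H.H41.chk faf
  have sum : SUMStmt := Pool.Agent.F5H.H02.sum faf
  have sec : SECStmt := Pool.Agent.F5H.H10.sec vae avg sum dz n m k0 x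
  have one : ONEStmt := Pool.Agent.F5H.H24.one
    (Pool.Agent.F5H.H39.ex1 Pool.Agent.F5H.H41.clf ggf)
    (Pool.Agent.F5H.H39.spt Pool.Agent.F5H.H41.clf ggf ann) vae
  Pool.Agent.F5H.H83.a_fin sec one Pool.Agent.F5H.H41.chk (Pool.Agent.F5H.H25.sml kkf wbf)

end Pool.Agent.F5H.AsmA
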