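import Pool.Agent.Helper36_F5H.StmtsK

/-!
MP_f5cbfa_nt, squad F5H, row K_MNY: many lattice triples near the ray.
-/

set_option autoImplicit false

open MeasureTheory

namespace Pool.Agent.F5H.K2.H65

open Pool.Agent.Helper68_F5 Pool.Agent.F5H.W36 Pool.Agent.F5H.K2

theorem mny : MNYStmt := by
  classical
  intro g hg P R e₁ e₂ e₃ hP hR hcov h₁ h₂ h₃
  choose w hw using hcov
  have hP0 : 0 < P := by linarith
  obtain ⟨N, hN⟩ : ∃ N : ℕ, N = ⌊(R - 2 * P) / (3 * P)⌋₊ := ⟨_, rfl⟩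
  have hx0 : 0 ≤ (R - 2 * P) / (3 * P) := div_nonneg (by linarith) (by linarith)
  have hN1 : (N : ℝ) * (3 * P) ≤ R - 2 * P := by
    have h := Nat.floor_le hx0
    rw [← hN, le_div_iff₀ (by linarith)] at h
    exact h
  have hN2 : R - 2 * P < ((N : ℝ) + 1) * (3 * P) := by
    have h := Nat.lt_floor_add_one ((R - 2 * P) / (3 * P))
    rw [← hN, div_lt_iff₀ (by linarith)] at h
    exact h
  obtain ⟨c, hc⟩ : ∃ c : ℕ → ℝ, ∀ j, c j = R + P + 3 * P * j := ⟨fun j => _, fun j => rfl⟩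
  obtain ⟨v, hv⟩ : ∃ v : ℕ → T3, ∀ j, v j =
      (w ((c j : ℂ) * e₁), w ((c j : ℂ) * e₂), w ((c j : ℂ) * e₃)) := ⟨fun j => _, fun j => rfl⟩
  have hcl : ∀ j, R + P ≤ c j := fun j => by
    rw [hc j]
    have : 0 ≤ 3 * P * (j : ℝ) := by positivity
    linarith
  have hcu : ∀ j < N, c j ≤ 2 * R - P := fun j hj => by
    rw [hc j]
    have h1 : ((j : ℝ) + 1) ≤ N := by exact_mod_cast hj
    have h2 : ((j : ℝ) + 1) * (3 * P) ≤ N * (3 * P) := mul_le_mul_of_nonneg_right h1 (by linarith)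
    nlinarith
  have hnm : ∀ (j : ℕ) (e : ℂ), ‖e‖ = 1 → j < N → R ≤ ‖g (w ((c j : ℂ) * e))‖ ∧
      ‖g (w ((c j : ℂ) * e))‖ ≤ 2 * R := by
    intro j e he hj
    have h1 := hw ((c j : ℂ) * e)
    have h2 : ‖(c j : ℂ) * e‖ = c j := by
      rw [norm_mul, he, mul_one, Complex.norm_real, Real.norm_eq_abs, abs_of_nonneg]
      have := hcl j
      linarith
    have h3 := norm_sub_norm_le ((c j : ℂ) * e) (g (w ((c j : ℂ) * e)))
    have h4 := norm_sub_norm_le (g (w ((c j : ℂ) * e))) ((c j : ℂ) * e)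
    rw [norm_sub_rev] at h3
    rw [h2] at h3 h4
    have h5 := hcl j
    have h6 := hcu j hj
    exact ⟨by linarith, by linarith⟩
  have hinj : Set.InjOn v (Finset.range N : Finset ℕ) := by
    intro i hi j hj hij
    have h1 : w ((c i : ℂ) * e₁) = w ((c j : ℂ) * e₁) := by
      rw [hv i, hv j] at hij
      exact (Prod.mk.inj hij).1
    have h2 := hw ((c i : ℂ) * e₁)
    have h3 := hw ((c j : ℂ) * e₁)
    rw [h1] at h2
    have h4 : ‖((c i : ℂ) * e₁) - ((c j : ℂ) * e₁)‖ ≤ 2 * P := by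
      have h5 := norm_sub_le (g (w ((c j : ℂ) * e₁)) - (c j : ℂ) * e₁)
        (g (w ((c j : ℂ) * e₁)) - (c i : ℂ) * e₁)
      have h6 : g (w ((c j : ℂ) * e₁)) - (c j : ℂ) * e₁ -
          (g (w ((c j : ℂ) * e₁)) - (c i : ℂ) * e₁) = (c i : ℂ) * e₁ - (c j : ℂ) * e₁ := by ring
      rw [h6] at h5
      linarith
    rw [← sub_mul, norm_mul, h₁, mul_one, ← Complex.ofReal_sub, Complex.norm_real,
      Real.norm_eq_abs, hc i, hc j] at h4
    have h7 : R + P + 3 * P * (i : ℝ) - (R + P + 3 * P * (j : ℝ)) = 3 * P * ((i : ℝ) - j) := by ring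
    rw [h7, abs_mul, abs_of_nonneg (by linarith : (0 : ℝ) ≤ 3 * P)] at h4
    by_contra hne
    have h8 : (1 : ℝ) ≤ |(i : ℝ) - j| := by
      have h9 : (1 : ℤ) ≤ |(i : ℤ) - j| := Int.one_le_abs (by omega)
      exact_mod_cast h9
    nlinarith
  have hsep : (0 : ℝ) < 1 := one_pos
  refine ⟨(Finset.range N).image v, ?_, ?_, ?_⟩
  · rw [Finset.card_image_of_injOn hinj, Finset.card_range, div_le_iff₀ (by linarith)]
    nlinarith
  · intro p hp
    obtain ⟨j, hj, rfl⟩ := Finset.mem_image.1 hp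
    rw [Finset.mem_range] at hj
    rw [hv j]
    have hR0 : 0 < R := by linarith
    rw [Finset.mem_product, Finset.mem_product, Pool.Agent.Helper38_F5.mem_lt hsep hg,
      Pool.Agent.Helper38_F5.mem_lt hsep hg, Pool.Agent.Helper38_F5.mem_lt hsep hg]
    exact ⟨by linarith [(hnm j e₁ h₁ hj).2], by linarith [(hnm j e₂ h₂ hj).2],
      by linarith [(hnm j e₃ h₃ hj).2]⟩
  · intro p hp
    obtain ⟨j, hj, rfl⟩ := Finset.mem_image.1 hp
    rw [Finset.mem_range] at hj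
    rw [hv j]
    refine ⟨(hnm j e₁ h₁ hj).1, (hnm j e₁ h₁ hj).2, c j, by linarith [hcl j], by linarith [hcu j hj],
      ?_⟩
    exact ⟨hw _, hw _, hw _⟩

end Pool.Agent.F5H.K2.H65
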